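import Mathlib
import Pool.Agent.U309.ZF.Stm

/-!
# Project ZF, package EUL2 (helper796)
-/

set_option autoImplicit false

open NumberField IsDedekindDomain UpperHalfPlane MatrixGroups CongruenceSubgroup Filter Topology
open scoped TensorProduct ComplexConjugate

namespace Pool.Agent.U796.ZF

open Pool.Agent.U309.ZF

theorem lam_le {a b : ℤ} {N : ℕ} {f : CuspForm (Gamma0 N : Subgroup (GL (Fin 2) ℝ)) 2} {w : ℝ}
    (hf : IsFormOf a b N f w) (p : ℕ) (hp : p.Prime) : |lam f p| ≤ 2 := by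
  have hp1 : (1 : ℝ) ≤ (p : ℝ) := by exact_mod_cast hp.one_lt.le
  have hs : 1 ≤ √(p : ℝ) := Real.one_le_sqrt.2 hp1
  have hs0 : 0 < √(p : ℝ) := by linarith
  have key : |(coef f p).re| ≤ 2 * √(p : ℝ) := by
    by_cases hN : p ∣ N
    · have h1 : |(coef f p).re| ≤ 1 := by
        rcases hf.bad p hp hN with h | h | h <;> rw [h] <;> simp
      linarith
    · exact (Complex.abs_re_le_norm _).trans (hf.good p hp hN)
  unfold lam
  rw [abs_div, abs_of_pos hs0, div_le_iff₀ hs0]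
  exact key

theorem c_le {K : Type} [Field K] [NumberField K] {a b : ℤ}
    {α : HeightOneSpectrum (𝓞 K) → Fin 2 → ℂ} (hα : IsParameter a b α)
    (v : HeightOneSpectrum (𝓞 K)) (k : ℕ) (t : ℝ) (ht : |t| ≤ 1) :
    |((∑ j, α v j ^ (k + 1)).re / √(q v) ^ (k + 1)) * t| ≤ 2 := by
  have h0 : 0 ≤ √(q v) ^ (k + 1) := pow_nonneg (Real.sqrt_nonneg _) _
  have h1 : |(∑ j, α v j ^ (k + 1)).re| ≤ 2 * √(q v) ^ (k + 1) := by
    refine (Complex.abs_re_le_norm _).trans ((norm_sum_le _ _).trans ?_)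
    rw [Fin.sum_univ_two, norm_pow, norm_pow]
    have e0 := pow_le_pow_left₀ (norm_nonneg _) (hα.norm v 0) (k + 1)
    have e1 := pow_le_pow_left₀ (norm_nonneg _) (hα.norm v 1) (k + 1)
    linarith
  have h2 : |(∑ j, α v j ^ (k + 1)).re / √(q v) ^ (k + 1)| ≤ 2 := by
    rw [abs_div, abs_of_nonneg h0]
    rcases h0.eq_or_lt with h | h
    · rw [← h]; simp
    · rw [div_le_iff₀ h]
      exact h1
  rw [abs_mul]
  calc |(∑ j, α v j ^ (k + 1)).re / √(q v) ^ (k + 1)| * |t| ≤ 2 * 1 :=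
        mul_le_mul h2 ht (abs_nonneg _) (by norm_num)
    _ = 2 := by norm_num

/-- package EUL2 -/
theorem t_EUL2 : S_EUL2 := by
  intro hRED hLDF hAV a b N _ f w hD hf n
  obtain ⟨C₁, hC₁, hR⟩ := hRED n
  obtain ⟨C₂, hC₂, hL⟩ := hLDF n
  set D : ℕ := (2 * (4 * a ^ 3 + 27 * b ^ 2)).natAbs with hDdef
  have hD0 : D ≠ 0 := by
    rw [hDdef, Int.natAbs_ne_zero]
    exact mul_ne_zero two_ne_zero hD
  have hlogD : 0 ≤ Real.log D := Real.log_natCast_nonneg D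
  refine ⟨C₂ + C₁ * (1 + Real.log D), by positivity, ?_⟩
  intro K _ _ hK α F hα hF
  obtain ⟨h1, h2, h3, h4⟩ := hL K hK a b α F hα hF
  have hpos : 0 ≤ C₁ * (1 + Real.log D) := by positivity
  refine ⟨h1, h2, fun s hs => ⟨(h3 s hs).1.trans ?_, le_trans ?_ (h3 s hs).2⟩, ?_⟩
  · exact Real.exp_le_exp.2 (by linarith)
  · exact Real.exp_le_exp.2 (by linarith)
  intro δ μ hδ hδ1
  set c : HeightOneSpectrum (𝓞 K) × ℕ → ℝ := fun x =>
    ((∑ j, α x.1 j ^ (x.2 + 1)).re / √(q x.1) ^ (x.2 + 1)) *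
      Real.cos (μ * ((x.2 + 1) * Real.log (q x.1))) with hc
  set X : ℕ → ℝ := fun p => lam f p * Real.cos (μ * Real.log (p : ℝ)) with hX
  have hcb : ∀ x, |c x| ≤ 2 := fun x => c_le hα x.1 x.2 _ (Real.abs_cos_le_one _)
  have hXb : ∀ p : ℕ, p.Prime → |X p| ≤ 2 := by
    intro p hp
    rw [hX]
    simp only [abs_mul]
    calc |lam f p| * |Real.cos (μ * Real.log (p : ℝ))| ≤ 2 * 1 :=
          mul_le_mul (lam_le hf p hp) (Real.abs_cos_le_one _) (abs_nonneg _) (by norm_num)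
      _ = 2 := by norm_num
  have hcX : ∀ (v : HeightOneSpectrum (𝓞 K)) (p : ℕ), p.Prime → Ideal.absNorm v.asIdeal = p →
      ¬ p ∣ D → c (v, 0) = X p := by
    intro v p hp hv hpD
    have hpD' : ¬ (p : ℤ) ∣ 2 * (4 * a ^ 3 + 27 * b ^ 2) := by
      rw [hDdef] at hpD
      intro h
      exact hpD (Int.natCast_dvd.1 h)
    obtain ⟨e1, e2⟩ := hAV K a b v p hp hv
    have e3 := hα.sum v (e2 hpD')
    have e4 := hf.points p hp hpD'
    have hq : q v = (p : ℝ) := by rw [q, hv]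
    simp only [hc, hX, lam]
    rw [Fin.sum_univ_two, zero_add, pow_one, pow_one, pow_one, e3, e1, e4, hq]
    simp
  obtain ⟨-, h5⟩ := hR K hK c hcb X hXb D hD0 hcX δ hδ hδ1
  have hW : W (fun p => lam f p * pi1 K p) δ μ = ∑' p : Nat.Primes, (pi1 K p : ℝ) * X p *
        (Real.log ((p : ℕ) : ℝ) * ((p : ℕ) : ℝ) ^ (-(1 + δ))) := by
    unfold W
    refine tsum_congr fun p => ?_
    simp only [hX]
    ring
  rw [h4 δ μ hδ hδ1, hW]
  have e : (-∑' x : HeightOneSpectrum (𝓞 K) × ℕ,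
          (((∑ j, α x.1 j ^ (x.2 + 1)).re / √(q x.1) ^ (x.2 + 1)) *
            Real.cos (μ * ((x.2 + 1) * Real.log (q x.1)))) * wt δ x) = -∑' x, c x * wt δ x := rfl
  rw [e]
  rw [show -∑' x, c x * wt δ x + ∑' p : Nat.Primes, (pi1 K p : ℝ) * X p *
        (Real.log ((p : ℕ) : ℝ) * ((p : ℕ) : ℝ) ^ (-(1 + δ))) = -((∑' x, c x * wt δ x) -
        ∑' p : Nat.Primes, (pi1 K p : ℝ) * X p *
        (Real.log ((p : ℕ) : ℝ) * ((p : ℕ) : ℝ) ^ (-(1 + δ)))) by ring, abs_neg]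
  linarith

end Pool.Agent.U796.ZF
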